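import Mathlib
import Pool.Agent.Q63.RC.Main

/-!
# Bloch's conjecture for correspondences on abelian coverings of `P^1 × C`

Let `C` be a smooth projective curve of genus `g` over `ℂ` and `X → P^1 × C` a (desingularised) abelian covering with the
group `G`, branched over smooth curves `D_i` whose union has normal crossings; the bidegrees of the `D_i`, the
geometric genus and the irregularity of `X` are arbitrary. Suppose that

* `g ≥ 1` and `G` is any finite abelian group, or
* `g = 0` and `G = (ℤ/p)^k` for any prime number `p`.

Then Bloch's conjecture is true for all correspondences `Γ` in the group ring `ℚ[G]`: if `Γ` acts as zero on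
`H^{2,0}(X)`, then `Γ` acts as zero on the kernel of the Albanese map. In particular `p_g(X / H) = 0` implies
`ker(alb) = 0` for all subgroups `H` of `G`.

If `Γ` does not act as zero on the `a`-part of the Albanese kernel, then (Galois conjugation) `H^{2,0}(X)_{u a} = 0`
for all units `u`. If `g ≥ 1` then it follows that `X / ker a` is ruled, or dominated by the product of two
curves. If `g = 0` the numerical theorem `Pool.Agent.Q63.QC.small` shows that one of the projections of
`X / ker a` to `P^1` has fibres which are branched over at most three points of `P^1`; again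
`X / ker a` is dominated by a product of two curves, so that its Albanese kernel vanishes by a theorem of Kimura.

As in `MP_762f97_ag.AbelianPlaneCoverings` the action `τ` of an element on `H^{2,0}(X)` is the push-forward.
-/

set_option autoImplicit false

namespace Pool.Agent.Results.MP_31564d_ag.CoveringsOfProducts

open Multiplicative Pool.Agent.Q63.RC

theorem result {m s : ℕ} [NeZero m] (g : ℕ) (hg : 1 ≤ g ∨ m.Prime) (d e : Fin s → ℕ)
    (Λ : AddSubgroup (Fin s → ZMod m)) (ψ : AddChar (ZMod m) ℂ) (hψ : ψ.IsPrimitive) {V W : Type}
    [AddCommGroup V] [Module ℂ V] [AddCommGroup W] [Module ℂ W]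
    (ρ : Representation ℂ (Multiplicative (Fin s → ZMod m)) V)
    (τ : Representation ℂ (Multiplicative (Fin s → ZMod m)) W) (hX : ProductCover g d e Λ ψ ρ τ)
    (c : (Fin s → ZMod m) → ℚ) (hc : ∀ w : W, ∑ h, (c h : ℂ) • τ (ofAdd h) w = 0) (v : V) :
    ∑ h, (c h : ℂ) • ρ (ofAdd h) v = 0 :=
  groupRing hψ hX hg c hc v

end Pool.Agent.Results.MP_31564d_ag.CoveringsOfProducts
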