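import Mathlib.CategoryTheory.Abelian.Basic
import Mathlib.CategoryTheory.Simple
import Mathlib.CategoryTheory.Preadditive.Schur
import Mathlib.Algebra.Category.ModuleCat.Abelian
import Mathlib.CategoryTheory.Preadditive.AdditiveFunctor
import Mathlib.LinearAlgebra.FiniteDimensional.Defs
import Mathlib.LinearAlgebra.Dimension.Free
import Mathlib.Data.Complex.Basic
import Mathlib.Tactic

set_option autoImplicit false

/-!
# Correspondences supported on the fibre products of surfaces over a curve

`C` is a smooth projective complex curve, `K` its function field.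
-/

open CategoryTheory CategoryTheory.Limits

universe v u v' u' w w'

namespace Pool.Agent.Results.MP_31564d_ag.FibrewiseCorrespondences

attribute [local instance] Abelian.hasFiniteBiproducts

/-- `A` is a direct factor of `B`. -/
def Factor {𝒜 : Type u'} [Category.{v'} 𝒜] (A B : 𝒜) : Prop :=
  ∃ (i : A ⟶ B) (r : B ⟶ A), i ≫ r = 𝟙 A

/-- The objects attached to a smooth projective complex curve `C` with function field `K`:

* `𝒞`: the category of the smooth projective complex surfaces `X` with a surjective morphism `X ⟶ C`; the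
  morphisms from `X` to `Y` are the algebraic cycles of dimension two on the fibre product `X ×_C Y` with rational
  coefficients, modulo rational equivalence, that is the correspondences supported on `X ×_C Y`;
* `𝒜`: the abelian varieties over `K` up to isogeny;
* `T X`: the kernel of the Albanese map of `X`;
* `Om X`: the space of the holomorphic two-forms on `X`;
* `J X`: the Jacobian of the generic fibre of `X ⟶ C`;
* `S A`: the global sections of `F_A ⊗ K_C`, where `F_A` is the (upper canonical extension of the) bundle of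
  the invariant differential forms of the dual of `A`;
* `rank A`, `deg A`: the rank of `F_A`, which is the dimension of `A`, and its degree;
* `Isotrivial A`: `A` is constant over a finite extension of `K`;
* `Elliptic X`: the fibres of `X ⟶ C` are curves of genus one;
* `IsProduct X`: `X` is a product `D × E` of two curves, and the morphism to `C` factors through the projection
  to `D`. -/
structure FibredData (𝒞 : Type u) [Category.{v} 𝒞] (𝒜 : Type u') [Category.{v'} 𝒜] where
  /-- the Albanese kernels -/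
  T : 𝒞 ⥤ ModuleCat.{w} ℚ
  /-- the holomorphic two-forms -/
  Om : 𝒞 ⥤ ModuleCat.{w'} ℂ
  /-- the Jacobians of the generic fibres -/
  J : 𝒞 ⥤ 𝒜
  /-- the global sections of `F_A ⊗ K_C` -/
  S : 𝒜 ⥤ ModuleCat.{w'} ℂ
  /-- the dimension of `A` -/
  rank : 𝒜 → ℕ
  /-- the degree of `F_A` -/
  deg : 𝒜 → ℤ
  /-- constant over a finite extension -/
  Isotrivial : 𝒜 → Prop
  /-- the elliptic surfaces over `C` -/
  Elliptic : 𝒞 → Prop
  /-- the products of two curves -/
  IsProduct : 𝒞 → Prop

/-- What is used; `b` is the genus of `C`.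

* `full`: every homomorphism of Jacobians is induced by a correspondence (a divisor on the product of the generic
  fibres);
* `zero`: a correspondence which acts as zero on the Jacobians is a sum of pull-backs of divisors from the two
  surfaces and of a part over finitely many points of `C`, so that it acts as zero on the Albanese kernels;
* `forms`: `H^0(X, K_X) = H^0(C, f_* ω_(X/C) ⊗ K_C)`, and `f_* ω_(X/C) = F_(J X)` (Kollár);
* `mumford`: the theorem of Mumford, Bloch and Srinivas;
* `split`, `simples`: Poincaré's reducibility theorem;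
* `riemannRoch`: Riemann-Roch for `F_A ⊗ K_C` on `C`;
* `nef`: Fujita's theorem (Griffiths, Kollár);
* `flat`: a family of abelian varieties with `deg F_A = 0` is isotrivial (the degree is the integral of the
  square of the norm of the Kodaira-Spencer map);
* `isotrivial`: an isotrivial `A` is a factor of the Weil restriction of a constant Jacobian, which is the Jacobian
  of the generic fibre of a product of curves;
* `kimura`: the motives of products of curves are finite dimensional, so that correspondences which act as zero on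
  the two-forms act as nilpotent maps on the Albanese kernel;
* `model`: an elliptic curve over `K` is the generic fibre of an elliptic surface;
* `kodaira`: the theorem of Bloch, Kas and Lieberman on surfaces with `p_g = 0` which are not of general type. -/
structure IsTheory {𝒞 : Type u} [Category.{v} 𝒞] [Preadditive 𝒞] {𝒜 : Type u'} [Category.{v'} 𝒜]
    [Abelian 𝒜] (D : FibredData.{v, u, v', u', w, w'} 𝒞 𝒜) (b : ℕ) : Prop where
  addT : D.T.Additive
  addJ : D.J.Additive
  addS : D.S.Additive
  full : ∀ {X Y : 𝒞} (φ : D.J.obj X ⟶ D.J.obj Y), ∃ Γ : X ⟶ Y, D.J.map Γ = φ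
  zero : ∀ {X Y : 𝒞} (Γ : X ⟶ Y), D.J.map Γ = 0 → D.T.map Γ = 0
  forms : Nonempty (D.Om ≅ D.J ⋙ D.S)
  mumford : ∀ {X Y : 𝒞} (Γ : X ⟶ Y), D.T.map Γ = 0 → D.Om.map Γ = 0
  split : ∀ {A B : 𝒜} (f : A ⟶ B), Mono f → ∃ r : B ⟶ A, f ≫ r = 𝟙 A
  simples : ∀ A : 𝒜, ∃ (n : ℕ) (F : Fin n → 𝒜), (∀ i, Simple (F i)) ∧ Nonempty (A ≅ ⨁ F)
  rank_pos : ∀ A : 𝒜, ¬ IsZero A → 0 < D.rank A
  riemannRoch : ∀ A : 𝒜, D.deg A + D.rank A * ((b : ℤ) - 1) ≤ Module.finrank ℂ (D.S.obj A)
  nef : ∀ A : 𝒜, 0 ≤ D.deg A
  flat : ∀ A : 𝒜, D.deg A = 0 → D.Isotrivial A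
  isotrivial : ∀ A : 𝒜, D.Isotrivial A → ∃ P : 𝒞, D.IsProduct P ∧ Factor A (D.J.obj P)
  kimura : ∀ P : 𝒞, D.IsProduct P → ∀ Γ : P ⟶ P, D.Om.map Γ = 0 →
    ∃ n : ℕ, (D.T.map Γ).hom ^ n = 0
  model : ∀ A : 𝒜, D.rank A = 1 → ∃ Y : 𝒞, D.Elliptic Y ∧ Nonempty (D.J.obj Y ≅ A)
  kodaira : ∀ Y : 𝒞, D.Elliptic Y → IsZero (D.Om.obj Y) → IsZero (D.T.obj Y)

variable {𝒞 : Type u} [Category.{v} 𝒞] [Preadditive 𝒞] {𝒜 : Type u'} [Category.{v'} 𝒜]
    [Abelian 𝒜] {D : FibredData.{v, u, v', u', w, w'} 𝒞 𝒜} {b : ℕ} (h : IsTheory D b)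

include h

lemma om_zero {X Y : 𝒞} (Γ : X ⟶ Y) : D.Om.map Γ = 0 ↔ D.S.map (D.J.map Γ) = 0 := by
  obtain ⟨e⟩ := h.forms
  have hn := e.hom.naturality Γ
  simp only [Functor.comp_map] at hn
  constructor
  · intro h0
    rw [h0, zero_comp] at hn
    have : D.S.map (D.J.map Γ) = e.inv.app X ≫ (e.hom.app X ≫ D.S.map (D.J.map Γ)) := by
      rw [← Category.assoc, Iso.inv_hom_id_app]
      exact (Category.id_comp _).symm
    rw [this, ← hn, comp_zero]
  · intro h0
    rw [h0, comp_zero] at hn
    have : D.Om.map Γ = (D.Om.map Γ ≫ e.hom.app Y) ≫ e.inv.app Y := by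
      rw [Category.assoc, Iso.hom_inv_id_app]
      exact (Category.comp_id _).symm
    rw [this, hn, zero_comp]

/-- Correspondences with the same action on the Jacobians have the same action on the Albanese kernels. -/
lemma T_eq {X Y : 𝒞} {Γ Γ' : X ⟶ Y} (h0 : D.J.map Γ = D.J.map Γ') : D.T.map Γ = D.T.map Γ' := by
  have := h.addT
  have := h.addJ
  have h1 : D.J.map (Γ - Γ') = 0 := by rw [Functor.map_sub, h0, sub_self]
  have h2 := h.zero _ h1
  rw [Functor.map_sub, sub_eq_zero] at h2
  exact h2

/-- `A` is harmless: a correspondence whose action on the Jacobians factors through `A` acts as zero on the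
Albanese kernels. -/
def Harmless (D : FibredData.{v, u, v', u', w, w'} 𝒞 𝒜) (A : 𝒜) : Prop :=
  ∀ (X Y : 𝒞) (p : D.J.obj X ⟶ A) (q : A ⟶ D.J.obj Y) (Γ : X ⟶ Y), D.J.map Γ = p ≫ q → D.T.map Γ = 0

/-- Factors of the Jacobians of surfaces whose Albanese kernel is zero are harmless. -/
lemma harmless_factor {A : 𝒜} (hA : ∃ Z : 𝒞, IsZero (D.T.obj Z) ∧ Factor A (D.J.obj Z)) :
    Harmless D A := by
  obtain ⟨Z, hT, i, r, hir⟩ := hA
  intro X Y p q Γ hΓ
  obtain ⟨a, ha⟩ := h.full (p ≫ i)
  obtain ⟨c, hc⟩ := h.full (r ≫ q)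
  have h3 : D.T.map Γ = D.T.map (a ≫ c) := by
    apply T_eq h
    rw [D.J.map_comp, ha, hc, hΓ, Category.assoc, ← Category.assoc i r, hir, Category.id_comp]
  rw [h3, D.T.map_comp, hT.eq_of_src (D.T.map c) 0, comp_zero]

/-- Isotrivial factors without sections are harmless. -/
lemma harmless_isotrivial {A : 𝒜} (hA : D.Isotrivial A) (hS : IsZero (D.S.obj A)) :
    Harmless D A := by
  obtain ⟨P, hP, i, r, hir⟩ := h.isotrivial A hA
  intro X Y p q Γ hΓ
  obtain ⟨a, ha⟩ := h.full (p ≫ i)
  obtain ⟨c, hc⟩ := h.full (r ≫ q)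
  obtain ⟨ε, hε⟩ := h.full (r ≫ i)
  have hε2 : D.T.map (ε ≫ ε) = D.T.map ε := by
    apply T_eq h
    rw [D.J.map_comp, hε]
    rw [Category.assoc, ← Category.assoc i r i, hir, Category.id_comp]
  have hSε : D.Om.map ε = 0 := by
    rw [om_zero h, hε, D.S.map_comp]
    have : D.S.map r = 0 := hS.eq_of_tgt _ _
    rw [this, zero_comp]
  obtain ⟨n, hn⟩ := h.kimura P hP ε hSε
  have hid : (D.T.map ε).hom * (D.T.map ε).hom = (D.T.map ε).hom := by
    rw [D.T.map_comp] at hε2
    exact congrArg (fun t : D.T.obj P ⟶ D.T.obj P => t.hom) hε2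
  have hTε : D.T.map ε = 0 := by
    have h1 : ∀ n : ℕ, (D.T.map ε).hom ^ (n + 1) = (D.T.map ε).hom := by
      intro n
      induction n with
      | zero => rw [zero_add, pow_one]
      | succ n ih => rw [pow_succ, ih, hid]
    have h2 : (D.T.map ε).hom = 0 := by
      rw [← h1 n, pow_succ, hn, zero_mul]
    exact ModuleCat.hom_ext h2
  have h3 : D.T.map Γ = D.T.map (a ≫ ε ≫ c) := by
    apply T_eq h
    rw [D.J.map_comp, D.J.map_comp, ha, hε, hc, hΓ]
    simp only [Category.assoc]
    rw [← Category.assoc i r, hir, Category.id_comp, ← Category.assoc i r, hir, Category.id_comp]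
  rw [h3, D.T.map_comp, D.T.map_comp, hTε, zero_comp, comp_zero]

/-- Elliptic curves without sections are harmless. -/
lemma harmless_elliptic {A : 𝒜} (hA : D.rank A = 1) (hS : IsZero (D.S.obj A)) : Harmless D A := by
  obtain ⟨Z, hZ, ⟨e⟩⟩ := h.model A hA
  have hOm : IsZero (D.Om.obj Z) := by
    obtain ⟨f⟩ := h.forms
    exact (hS.of_iso (D.S.mapIso e)).of_iso (f.app Z)
  exact harmless_factor h ⟨Z, h.kodaira Z hZ hOm, e.inv, e.hom, e.inv_hom_id⟩

/-- For a base curve of genus at least one, the factors without sections are isotrivial. -/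
lemma isotrivial_of_genus (hb : 1 ≤ b) {A : 𝒜} (hA : ¬ IsZero A) (hS : IsZero (D.S.obj A)) :
    D.Isotrivial A := by
  have h1 := h.riemannRoch A
  have h2 := h.nef A
  have h3 := h.rank_pos A hA
  have h4 : Module.finrank ℂ (D.S.obj A) = 0 := by
    have : Subsingleton (D.S.obj A) := ModuleCat.subsingleton_of_isZero hS
    exact Module.finrank_zero_of_subsingleton
  rw [h4] at h1
  have h5 : (0 : ℤ) ≤ D.rank A * ((b : ℤ) - 1) := by
    apply mul_nonneg (by positivity)
    omega
  apply h.flat
  push_cast at h1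
  omega

/-- **The main argument.** -/
theorem main {X Y : 𝒞} (hX : ∀ A : 𝒜, Simple A → Factor A (D.J.obj X) → IsZero (D.S.obj A) →
    Harmless D A) (Γ : X ⟶ Y) : D.Om.map Γ = 0 ↔ D.T.map Γ = 0 := by
  refine ⟨fun h0 => ?_, h.mumford Γ⟩
  have := h.addT
  have := h.addJ
  have := h.addS
  rw [om_zero h] at h0
  obtain ⟨n, F, hF, ⟨e⟩⟩ := h.simples (D.J.obj X)
  let ι : ∀ i, F i ⟶ D.J.obj X := fun i => biproduct.ι F i ≫ e.inv
  let π : ∀ i, D.J.obj X ⟶ F i := fun i => e.hom ≫ biproduct.π F i
  have hιπ : ∀ i, ι i ≫ π i = 𝟙 (F i) := by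
    intro i
    simp [ι, π]
  have htot : ∑ i, π i ≫ ι i = 𝟙 (D.J.obj X) := by
    have h1 : ∑ i, π i ≫ ι i = e.hom ≫ (∑ i, biproduct.π F i ≫ biproduct.ι F i) ≫ e.inv := by
      rw [Preadditive.sum_comp, Preadditive.comp_sum]
      refine Finset.sum_congr rfl fun i _ => ?_
      simp [ι, π]
    rw [h1, biproduct.total, Category.id_comp, Iso.hom_inv_id]
  choose E hE using fun i => h.full (π i ≫ ι i)
  have h1 : D.T.map Γ = ∑ i, D.T.map (E i ≫ Γ) := by
    rw [← Functor.map_sum]
    apply T_eq h
    rw [Functor.map_sum]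
    have : ∀ i, D.J.map (E i ≫ Γ) = (π i ≫ ι i) ≫ D.J.map Γ := fun i => by
      rw [D.J.map_comp, hE]
    simp_rw [this]
    rw [← Preadditive.sum_comp, htot, Category.id_comp]
  rw [h1]
  refine Finset.sum_eq_zero fun i _ => ?_
  by_cases hz : ι i ≫ D.J.map Γ = 0
  · apply h.zero
    rw [D.J.map_comp, hE, Category.assoc, hz, comp_zero]
  · have := hF i
    have hmono : Mono (ι i ≫ D.J.map Γ) := mono_of_nonzero_from_simple hz
    obtain ⟨r, hr⟩ := h.split _ hmono
    have hS : IsZero (D.S.obj (F i)) := by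
      rw [IsZero.iff_id_eq_zero]
      rw [← D.S.map_id, ← hr, D.S.map_comp, D.S.map_comp, h0, comp_zero, zero_comp]
    refine hX (F i) (hF i) ⟨ι i, π i, hιπ i⟩ hS X Y (π i) (ι i ≫ D.J.map Γ) _ ?_
    rw [D.J.map_comp, hE, Category.assoc]



/-- The simple abelian varieties over the function field of `C` which are covered by the second part: there are
nonzero sections (the factor contributes to `p_g`), or elliptic curves, or isotrivial, or factors of the Jacobian of
a surface over `C` whose Albanese kernel is zero. -/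
def Covered (D : FibredData.{v, u, v', u', w, w'} 𝒞 𝒜) (A : 𝒜) : Prop :=
  ¬ IsZero (D.S.obj A) ∨ D.rank A = 1 ∨ D.Isotrivial A ∨
    ∃ Z : 𝒞, IsZero (D.T.obj Z) ∧ Factor A (D.J.obj Z)

omit h in
/-- **Bloch's conjecture for the correspondences supported on the fibre products of surfaces over a curve.**

* If the base curve has genus at least one, Bloch's conjecture holds for all correspondences supported on `X ×_C Y`:
  such a correspondence acts as zero on the two-forms if and only if it acts as zero on the Albanese kernels.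
* For every base curve the same is true for all `X` such that all simple factors of the Jacobian of the generic fibre
  of `X` are covered. -/
theorem result {𝒞 : Type u} [Category.{v} 𝒞] [Preadditive 𝒞] {𝒜 : Type u'} [Category.{v'} 𝒜]
    [Abelian 𝒜] {D : FibredData.{v, u, v', u', w, w'} 𝒞 𝒜} {b : ℕ} (h : IsTheory D b) :
    (1 ≤ b → ∀ (X Y : 𝒞) (Γ : X ⟶ Y), D.Om.map Γ = 0 ↔ D.T.map Γ = 0) ∧
    ∀ X : 𝒞, (∀ A : 𝒜, Simple A → Factor A (D.J.obj X) → Covered D A) →
      ∀ (Y : 𝒞) (Γ : X ⟶ Y), D.Om.map Γ = 0 ↔ D.T.map Γ = 0 := by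
  refine ⟨fun hb X Y Γ => main h (fun A hA _ hS => ?_) Γ,
    fun X hX Y Γ => main h (fun A hA hf hS => ?_) Γ⟩
  · exact harmless_isotrivial h (isotrivial_of_genus h hb (Simple.not_isZero A) hS) hS
  · rcases hX A hA hf with h1 | h1 | h1 | h1
    · exact absurd hS h1
    · exact harmless_elliptic h h1 hS
    · exact harmless_isotrivial h h1 hS
    · exact harmless_factor h h1

end Pool.Agent.Results.MP_31564d_ag.FibrewiseCorrespondences
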