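import Pool.Agent.Q63.BM.Main

/-!
# Bloch's conjecture for the correspondences in the group ring of a group of automorphisms

Let `G` be a finite group acting faithfully on the smooth projective complex surface `S`, of any
geometric genus, and let `vol S` be the number `K^2` of its minimal model if `S` is of general type, and
`0` otherwise. We consider the correspondences `Z = ∑ z_g Γ_g ∈ CH^2(S × S)_ℚ` (`Γ_g` the graph of `g`),
that is, the elements `z` of the group ring `ℚ[G]`. Let `BlochUpTo k` be Bloch's conjecture for the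
surfaces with `p_g = 0` and `vol ≤ k`; it is known for `k = 0` (Bloch, Kas and Lieberman).

1. Suppose `BlochUpTo k`, and that each complex representation `W` of `G` on which `z` does not act as
   zero has a nonzero vector which is fixed by a subgroup `H` such that `(k + 1) |H| > vol S` and there
   are no nonzero `H`-invariant holomorphic two-forms on `S`. Then `Z_* = 0` on `F^2 CH_0(S) ⊗ ℚ`. (It is
   sufficient to consider irreducible `W`. The condition implies that `z` kills `H^{2,0}(S)`, since a
   constituent `W` of the dual of `H^{2,0}(S)` has no such vectors.)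
2. If `G` is abelian, the condition is that for each character `χ` of `G` with `∑ z_g χ(g) ≠ 0` there
   are no nonzero two-forms invariant under the kernel of `χ`, and `(k + 1) |ker χ| > vol S`.
3. Let `Γ` be any subgroup of `G`, for instance one which acts freely, and suppose that each complex
   representation of `G` with a nonzero vector fixed by `Γ` has a nonzero vector fixed by a subgroup `H`
   as in 1. Then there are no nonzero `Γ`-invariants in `F^2 CH_0(S) ⊗ ℚ`: Bloch's conjecture holds for
   the surface `S / Γ`. (The automorphisms in `G` need not normalize `Γ`, so that they need not act on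
   `S / Γ`.)

In all cases the quotient surfaces `S / H` are not of general type (`k = 0`), and nothing more is
assumed about them.
-/

set_option autoImplicit false

open CategoryTheory Opposite

universe u v w w'

namespace Pool.Agent.Results.MP_31564d_ag.GroupRingCorrespondences

open Pool.Agent.Q63.BL

/-- The subgroup `H` has no invariant two-forms and `(k + 1) |H| > vol S`. -/
def Large {𝒮 : Type u} [Category.{v} 𝒮] (Om : 𝒮ᵒᵖ ⥤ ModuleCat.{w'} ℂ) (vol : 𝒮 → ℕ) (k : ℕ)
    {G : Type} [Group G] {S : 𝒮} (a : G →* Aut S) (H : Subgroup G) : Prop :=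
  NoInvForms Om a H ∧ vol S < (k + 1) * Nat.card H

/-- The vector space `ℂ ^ n` with the action `σ` has a nonzero vector fixed by `H`. -/
def HasFixed {G : Type} [Group G] {n : ℕ} (σ : Representation ℂ G (Fin n → ℂ)) (H : Subgroup G) :
    Prop :=
  ∃ w : Fin n → ℂ, w ≠ 0 ∧ ∀ h ∈ H, σ h w = w

/-- Bloch's conjecture for correspondences in the group ring. -/
theorem result {𝒮 : Type u} [Category.{v} 𝒮] (T : 𝒮 ⥤ ModuleCat.{w} ℚ)
    (Om : 𝒮ᵒᵖ ⥤ ModuleCat.{w'} ℂ) (vol : 𝒮 → ℕ) (hT : IsSurfaceTheory T Om vol) :
    BlochUpTo T Om vol 0 ∧ ∀ (k : ℕ) (S : 𝒮), BlochUpTo T Om vol k →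
      (∀ (G : Type) [Group G] [Fintype G] (a : G →* Aut S), Function.Injective a →
        (∀ z : G → ℚ, (∀ (n : ℕ) (σ : Representation ℂ G (Fin n → ℂ)),
            ∑ g, (z g : ℂ) • σ g ≠ 0 → ∃ H, Large Om vol k a H ∧ HasFixed σ H) →
          ∀ x : T.obj S, ∑ g, z g • push T (a g).hom x = 0) ∧
        (∀ Γ : Subgroup G, (∀ (n : ℕ) (σ : Representation ℂ G (Fin n → ℂ)),
            HasFixed σ Γ → ∃ H, Large Om vol k a H ∧ HasFixed σ H) →
          ∀ x : T.obj S, (∀ γ ∈ Γ, push T (a γ).hom x = x) → x = 0)) ∧
      (∀ (G : Type) [CommGroup G] [Fintype G] (a : G →* Aut S), Function.Injective a →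
        ∀ z : G → ℚ, (∀ χ : G →* ℂˣ, ∑ g, (z g : ℂ) * (χ g : ℂ) ≠ 0 →
            Large Om vol k a χ.ker) →
          ∀ x : T.obj S, ∑ g, z g • push T (a g).hom x = 0) := by
  refine ⟨blochUpTo_zero hT, fun k S hk => ⟨fun G _ _ a ha => ⟨fun z hz => ?_, fun Γ hΓ => ?_⟩,
    fun G _ _ a ha z hz => corr_eq_zero_comm hT hk ha z hz⟩⟩
  · refine corr_eq_zero hT hk ha z fun n σ h => ?_
    obtain ⟨H, ⟨h1, h2⟩, h3⟩ := hz n σ h
    exact ⟨H, h1, h2, h3⟩
  · refine fixed_eq_zero hT hk ha Γ fun n σ h => ?_
    obtain ⟨H, ⟨h1, h2⟩, h3⟩ := hΓ n σ h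
    exact ⟨H, h1, h2, h3⟩

end Pool.Agent.Results.MP_31564d_ag.GroupRingCorrespondences
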