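import Pool.Agent.Q72.DP.Corr

/-!
# Bloch's conjecture for correspondences on a surface and vector bundles on `S × S`

`𝒱` is the class of smooth projective complex varieties (or any class of smooth proper varieties over
a field `k` closed under products), `C` the Chow groups with rational coefficients (in the form of
their formal properties, `IsChowProj`), `H` a Weil cohomology theory (`IsWeilProj`; for the problem:
Betti cohomology), `B` the Grothendieck rings of vector bundles (`IsKTheory`). `S` is a surface, `T`
the kernel of the Albanese map on `CH²(S)_0` with rational coefficients, and `Z Γ` the property of
`Γ ∈ CH²(S × S)` that it acts as zero on the holomorphic two-forms of `S`; the known facts which are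
used of them are `IsTwoForm`.

Theorem. For every surface `S` the following are equivalent:
* every correspondence `Γ` on `S` acting as zero on the holomorphic two-forms acts as zero on the
  Albanese kernel;
* every homologically trivial correspondence acts as zero on the Albanese kernel;
* for every vector bundle on `S × S` of rank `m ≥ 2` with `c_1 = 0` and homologically trivial Chern
  classes, the correspondence `c_2` acts as zero on the Albanese kernel;
* for every projective bundle `f : P → S × S` of a vector bundle of rank `m ≥ 2` with tautological
  class `ξ`: if `f_* (ξ^m) = 0` and `ξ^m` is homologically trivial then the correspondence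
  `f_* (ξ^(m+1))` acts as zero on the Albanese kernel.
-/

open CategoryTheory AlgebraicGeometry

set_option autoImplicit false

universe u v w

namespace Pool.Agent.Results.MP_31564d_ag.VectorBundles

open Pool.Agent.H914 Pool.Agent.H914.VarClass.Obj Pool.Agent.W492.BB Pool.Agent.TH133
  Pool.Agent.Q72.DP

/-- Bloch's conjecture for the correspondences on a surface `S` is equivalent to the statement that
`c_2` acts as zero on the Albanese kernel, for all vector bundles on `S × S` with `c_1 = 0` and
homologically trivial Chern classes. -/
theorem result {k : Type u} [Field k] {𝒱 : VarClass k} (C : TheoryData.{u, v, 0} 𝒱 ℚ)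
    [IsChowProj C] {K : Type w} [Field K] (H : WeilTheoryData.{u, v, w} C K) [IsWeilProj H]
    (B : BundleData C) (hB : B.IsKTheory) (S : 𝒱.Obj) (T : Submodule ℚ (C.A S))
    (Z : C.A (S.prod S) → Prop) (hZ : IsTwoForm H T Z) :
    [BlochCorr T Z, HomCorr H (Y := S) T, BundleCorr H B (Y := S) T,
      TautCorr H B (Y := S) T].TFAE :=
  corr_tfae hB hZ

end Pool.Agent.Results.MP_31564d_ag.VectorBundles
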